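import Pool.Agent.R634.NR.Main

/-!
MP_1c9258_gt, Q1.  If some regular cardinal `κ > 𝔠` carries a non-reflecting stationary set of
points of countable cofinality (which holds, for example, in `L`, or whenever `□_μ` holds for some
`μ ≥ 𝔠`), then there is a compact Hausdorff space `X` which is not Corson compact, although the
closure of every subset of cardinality less than `κ` (in particular, at most `𝔠`) is Corson compact.
So a positive answer to Q1 is not provable in ZFC.
-/

open Cardinal Pool.Agent.R634.NR

namespace Pool.Agent.Results.MP_1c9258_gt.NonReflecting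

/-- Corson compactness (for compact spaces): an embedding into a `Σ`-product of lines. -/
def IsCorson (X : Type) [TopologicalSpace X] : Prop :=
  ∃ (Γ : Type) (f : X → (Γ → ℝ)), Topology.IsEmbedding f ∧
    ∀ x, (Function.support (f x)).Countable

theorem result (κ : Cardinal.{0}) (hκ : 𝔠 < κ) (h : HasNonReflecting κ) :
    ∃ (X : Type) (_ : TopologicalSpace X) (_ : CompactSpace X) (_ : T2Space X),
      (∀ A : Set X, #A < κ → IsCorson (closure A)) ∧ ¬ IsCorson X := by
  obtain ⟨X, i1, i2, i3, h1, h2⟩ := main (aleph0_lt_continuum.trans hκ) h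
  refine ⟨X, i1, i2, i3, fun A hA => ?_, ?_⟩
  · obtain ⟨Γ, f, hf, hinj, hfin, -⟩ := h1 A hA
    have : CompactSpace (closure A) := isCompact_iff_compactSpace.1 isClosed_closure.isCompact
    exact ⟨Γ, f, (hf.isClosedEmbedding hinj).isEmbedding, fun x => (hfin x).countable⟩
  · rintro ⟨Γ, f, hf, hsupp⟩
    exact h2 Γ f hf.continuous hf.injective hsupp

end Pool.Agent.Results.MP_1c9258_gt.NonReflecting
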